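import Mathlib

set_option autoImplicit false

/-!
# Common divisors of `z` and `x - y` for solutions of `(x^2-1)(y^2-1)=(z^2-1)^2`
-/

namespace Pool.Agent.H27.B95

/-- Size relations between `y`, `z` and `s = xy - z^2`. -/
lemma sizes (x y z s : ℤ) (hy : 2 ≤ y) (hyz : y < z) (hzx : z < x)
    (E : (x ^ 2 - 1) * (y ^ 2 - 1) = (z ^ 2 - 1) ^ 2) (hs : s = x * y - z ^ 2) :
    1 ≤ s ∧ 2 * (y ^ 2 - 1) * s + y ^ 2 < z ^ 2 ∧
      2 * z ^ 2 < (4 * (y ^ 2 - 1) + 1) * s + 4 * y ^ 2 - 1 := by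
  have h1 : (z ^ 2 - 1) ^ 2 < (x * y - 1) ^ 2 := by
    have e1 : (x * y - 1) ^ 2 = (z ^ 2 - 1) ^ 2 + (x - y) ^ 2 := by linear_combination E
    have e2 : 0 < (x - y) ^ 2 := by
      have : 0 < x - y := by linarith
      positivity
    linarith
  have h2 : z ^ 2 - 1 < x * y - 1 := lt_of_pow_lt_pow_left₀ 2 (by nlinarith) h1
  have hs1 : 1 ≤ s := by omega
  have hD : 3 ≤ y ^ 2 - 1 := by nlinarith
  have hz2 : 0 < z ^ 2 - 1 := by nlinarith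
  have h3 : (x * (y ^ 2 - 1)) ^ 2 < (y * (z ^ 2 - 1)) ^ 2 := by
    have e1 : (y * (z ^ 2 - 1)) ^ 2 - (x * (y ^ 2 - 1)) ^ 2 = (y ^ 2 - 1) * (x ^ 2 - y ^ 2) := by
      linear_combination -(y ^ 2) * E
    have e2 : 0 < (y ^ 2 - 1) * (x ^ 2 - y ^ 2) := by
      apply mul_pos (by linarith)
      nlinarith
    linarith
  have h4 : x * (y ^ 2 - 1) < y * (z ^ 2 - 1) := lt_of_pow_lt_pow_left₀ 2 (by positivity) h3
  obtain ⟨R, hR⟩ : ∃ R, R = z ^ 2 - (y ^ 2 - 1) * s - y ^ 2 := ⟨_, rfl⟩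
  have hR1 : R = y * (y * (z ^ 2 - 1) - x * (y ^ 2 - 1)) := by
    rw [hR, hs]; ring
  have hRpos : 0 < R := by
    rw [hR1]
    apply mul_pos (by linarith)
    linarith
  have hR2 : R ^ 2 = y ^ 2 * (y ^ 2 - 1) * (s * (s + 2)) := by
    rw [hR, hs]
    linear_combination (-(y ^ 2)) * E
  have h5 : (y ^ 2 - 1) * s < R := by
    apply lt_of_pow_lt_pow_left₀ 2 hRpos.le
    rw [hR2]
    have e1 : y ^ 2 * (y ^ 2 - 1) * (s * (s + 2)) - ((y ^ 2 - 1) * s) ^ 2 =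
        (y ^ 2 - 1) * s * (2 * y ^ 2 + s) := by ring
    have e2 : 0 < (y ^ 2 - 1) * s * (2 * y ^ 2 + s) := by
      apply mul_pos (mul_pos (by linarith) (by linarith))
      nlinarith
    linarith
  have h6 : 2 * R < (2 * (y ^ 2 - 1) + 1) * (s + 1) := by
    apply lt_of_pow_lt_pow_left₀ 2
    · apply mul_nonneg <;> linarith
    have e1 : ((2 * (y ^ 2 - 1) + 1) * (s + 1)) ^ 2 - (2 * R) ^ 2 =
        4 * (y ^ 2 * (y ^ 2 - 1)) + (s + 1) ^ 2 := by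
      rw [mul_pow 2 R, hR2]; ring
    have e2 : 0 < 4 * (y ^ 2 * (y ^ 2 - 1)) + (s + 1) ^ 2 := by
      have : 0 < y ^ 2 * (y ^ 2 - 1) := mul_pos (by positivity) (by linarith)
      positivity
    linarith
  refine ⟨hs1, ?_, ?_⟩
  · linarith
  · linarith

/-- The arithmetic of a common divisor. -/
lemma divs (e x y z q : ℤ) (he : e = 1 ∨ e = -1) (hy : 2 ≤ y)
    (E : (x ^ 2 - 1) * (y ^ 2 - 1) = (z ^ 2 - 1) ^ 2)
    (hq0 : 0 < q) (hqz : q ∣ z) (hqx : q ∣ x - e * y) :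
    ∃ g h y1 k ν μ : ℤ, 0 < g ∧ 0 < h ∧ 0 < y1 ∧ q = g * h ∧ y = g * y1 ∧ z = q * k ∧
      x * y - z ^ 2 - 2 * e = h ^ 2 * ν ∧ x * y - z ^ 2 = g ^ 2 * μ ∧ h ∣ y ^ 2 - 2 := by
  have he2 : e ^ 2 = 1 := by rcases he with rfl | rfl <;> norm_num
  obtain ⟨k, hk⟩ := hqz
  obtain ⟨l, hl⟩ := hqx
  have hgpos : 0 < Int.gcd q y := Int.gcd_pos_of_ne_zero_left _ hq0.ne'
  obtain ⟨h, y1, hcop, hqg, hyg⟩ := Int.exists_gcd_one hgpos
  obtain ⟨g, hg⟩ : ∃ g : ℤ, g = (Int.gcd q y : ℤ) := ⟨_, rfl⟩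
  rw [← hg] at hqg hyg
  have hg0 : 0 < g := by rw [hg]; exact_mod_cast hgpos
  have hh0 : 0 < h := by
    by_contra hcon
    push Not at hcon
    have : h * g ≤ 0 := mul_nonpos_of_nonpos_of_nonneg hcon hg0.le
    linarith
  have hy10 : 0 < y1 := by
    by_contra hcon
    push Not at hcon
    have : y1 * g ≤ 0 := mul_nonpos_of_nonpos_of_nonneg hcon hg0.le
    linarith
  have hc : IsCoprime h y1 := Int.isCoprime_iff_gcd_eq_one.mpr hcop
  obtain ⟨x1, hx1⟩ : ∃ x1, x1 = h * l + e * y1 := ⟨_, rfl⟩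
  have hx : x = g * x1 := by
    rw [hx1]
    linear_combination hl + e * hyg + l * hqg
  have hcx : IsCoprime h x1 := by
    have h1 : IsCoprime h (e * y1) := by
      rcases he with rfl | rfl
      · simpa using hc
      · simpa using hc.neg_right
    rw [hx1, add_comm]
    exact h1.add_mul_left_right l
  have hcxy : IsCoprime (h ^ 2) (x1 * y1) := (IsCoprime.mul_right hcx hc).pow_left
  have hA : x * y * (x * y - 2 * e) = z ^ 2 * (z ^ 2 - 2) + (x - e * y) ^ 2 := by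
    linear_combination E + (y ^ 2) * (-he2)
  have hB : x1 * y1 * (x * y - 2 * e) = h ^ 2 * (k ^ 2 * (z ^ 2 - 2) + l ^ 2) := by
    have h1 : g ^ 2 * (x1 * y1 * (x * y - 2 * e)) = g ^ 2 * (h ^ 2 * (k ^ 2 * (z ^ 2 - 2) + l ^ 2)) := by
      have h2 : g ^ 2 * (x1 * y1 * (x * y - 2 * e)) = x * y * (x * y - 2 * e) := by
        have : x * y = g ^ 2 * (x1 * y1) := by
          linear_combination y * hx + g * x1 * hyg
        linear_combination (-(x * y - 2 * e)) * this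
      rw [h2, hA, hl]
      have hzz : z ^ 2 = (g * h) ^ 2 * k ^ 2 := by rw [hk, hqg]; ring
      have hqq : q ^ 2 = (g * h) ^ 2 := by rw [hqg]; ring
      linear_combination (z ^ 2 - 2) * hzz + l ^ 2 * hqq
    exact mul_left_cancel₀ (by positivity) h1
  have hdvd : h ^ 2 ∣ x * y - 2 * e := hcxy.dvd_of_dvd_mul_left ⟨_, hB⟩
  obtain ⟨n, hn⟩ := hdvd
  have hzz : z ^ 2 = h ^ 2 * (g ^ 2 * k ^ 2) := by rw [hk, hqg]; ring
  refine ⟨g, h, y1, k, n - g ^ 2 * k ^ 2, x1 * y1 - h ^ 2 * k ^ 2, hg0, hh0, hy10, ?_, ?_, hk, ?_, ?_, ?_⟩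
  · rw [hqg]; ring
  · rw [hyg]; ring
  · linear_combination hn - hzz
  · have : x * y = g ^ 2 * (x1 * y1) := by
      linear_combination y * hx + g * x1 * hyg
    linear_combination this - hzz
  · have h1 : h ^ 2 ∣ (y ^ 2 - 2) ^ 2 := by
      obtain ⟨s, hs⟩ : ∃ s, s = x * y - z ^ 2 := ⟨_, rfl⟩
      have hse : s - 2 * e = h ^ 2 * (n - g ^ 2 * k ^ 2) := by
        rw [hs]; linear_combination hn - hzz
      have h2 : (y ^ 2 - 2) ^ 2 = (y ^ 2 - 1) * (s - 2 * e) * (s + 2 * e) -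
          z ^ 2 * (z ^ 2 - 2 * ((y ^ 2 - 1) * s + y ^ 2)) := by
        rw [hs]
        linear_combination (-(y ^ 2)) * E + (4 * (y ^ 2 - 1)) * he2
      rw [h2, hse, hzz]
      exact ⟨(y ^ 2 - 1) * (n - g ^ 2 * k ^ 2) * (s + 2 * e) - (g ^ 2 * k ^ 2) *
        (h ^ 2 * (g ^ 2 * k ^ 2) - 2 * ((y ^ 2 - 1) * s + y ^ 2)), by ring⟩
    exact (Int.pow_dvd_pow_iff (by norm_num)).mp h1

end Pool.Agent.H27.B95
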