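import Mathlib
import Pool.Agent.H27.B95.Core

set_option autoImplicit false

/-!
# The bound for a common divisor
-/

namespace Pool.Agent.H27.B95

/-- the last step of the small-`y` cases -/
lemma small_y (g h y1 y k : ℤ) (hg : 0 < g) (hh : 0 < h) (hy1 : 0 < y1) (hy : 2 ≤ y)
    (hyg : y = g * y1) (hd : h ∣ y ^ 2 - 2) (hk : 0 < k) (hyk : y ^ 2 ≤ 2 * k ^ 2 + 1) :
    2 ≤ k ∧ (g * h) ^ 2 < 8 * k ^ 6 := by
  have h1 : h ≤ y ^ 2 - 2 := Int.le_of_dvd (by nlinarith) hd
  have h2 : g ≤ y := by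
    rw [hyg]
    nlinarith
  have hk2 : 2 ≤ k := by
    by_contra hcon
    have : k = 1 := by omega
    subst this
    nlinarith
  refine ⟨hk2, ?_⟩
  have h3 : g * h ≤ y * (y ^ 2 - 2) := mul_le_mul h2 h1 hh.le (by linarith)
  have h4 : (g * h) ^ 2 ≤ (y * (y ^ 2 - 2)) ^ 2 := pow_le_pow_left₀ (by positivity) h3 2
  have h5 : (y * (y ^ 2 - 2)) ^ 2 ≤ (2 * k ^ 2 + 1) * (2 * k ^ 2 - 1) ^ 2 := by
    rw [mul_pow]
    apply mul_le_mul hyk _ (by positivity) (by positivity)
    apply pow_le_pow_left₀ (by nlinarith)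
    linarith
  have h6 : (2 * k ^ 2 + 1) * (2 * k ^ 2 - 1) ^ 2 = 8 * k ^ 6 - 4 * k ^ 4 - 2 * k ^ 2 + 1 := by ring
  have h7 : 0 < k ^ 4 := by positivity
  have h8 : 4 ≤ k ^ 2 := by nlinarith
  linarith

/-- the quadratic equation of the boundary case has no positive integer root -/
lemma no_root (y t : ℤ) (hy : 2 ≤ y) (ht : 1 ≤ t)
    (H : (3 * y ^ 2 + 1) * t ^ 2 - (12 * y ^ 4 - 4 * y ^ 2 - 4) * t + (y ^ 2 - 2) ^ 2 = 0) :
    False := by
  have hy2 : 4 ≤ y ^ 2 := by nlinarith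
  obtain ⟨w, hw⟩ : ∃ w, w = y ^ 2 := ⟨_, rfl⟩
  have hw4 : 4 ≤ w := by rw [hw]; exact hy2
  have H' : (3 * w + 1) * t ^ 2 - (12 * w ^ 2 - 4 * w - 4) * t + (w - 2) ^ 2 = 0 := by
    rw [hw]; linear_combination H
  rcases le_or_gt t (4 * w - 3) with h1 | h1
  · have e1 : (3 * w + 1) * t ^ 2 - (12 * w ^ 2 - 4 * w - 4) * t + (w - 2) ^ 2 =
        -((3 * w + 1) * ((t - 1) * (4 * w - 3 - t))) + ((3 * w + 1) * (4 * w - 3 + 1) -
          (12 * w ^ 2 - 4 * w - 4)) * t - (3 * w + 1) * (4 * w - 3) + (w - 2) ^ 2 := by ring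
    have e2 : 0 ≤ (3 * w + 1) * ((t - 1) * (4 * w - 3 - t)) := by
      apply mul_nonneg (by linarith)
      apply mul_nonneg <;> linarith
    have e3 : ((3 * w + 1) * (4 * w - 3 + 1) - (12 * w ^ 2 - 4 * w - 4)) * t ≤ (2 * w + 2) * (4 * w - 3) := by
      have : ((3 * w + 1) * (4 * w - 3 + 1) - (12 * w ^ 2 - 4 * w - 4)) = 2 * w + 2 := by ring
      rw [this]
      apply mul_le_mul_of_nonneg_left h1
      linarith
    have e4 : (2 * w + 2) * (4 * w - 3) - (3 * w + 1) * (4 * w - 3) + (w - 2) ^ 2 < 0 := by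
      nlinarith
    linarith
  · have h2 : 4 * w - 2 ≤ t := by omega
    have e1 : (3 * w + 1) * t ^ 2 - (12 * w ^ 2 - 4 * w - 4) * t + (w - 2) ^ 2 =
        (3 * w + 1) * t * (t - (4 * w - 2)) + (2 * w + 2) * t + (w - 2) ^ 2 := by ring
    have e2 : 0 ≤ (3 * w + 1) * t * (t - (4 * w - 2)) := by
      apply mul_nonneg
      · apply mul_nonneg <;> linarith
      · linarith
    have e3 : 0 < (2 * w + 2) * t := by
      apply mul_pos <;> linarith
    have e4 : 0 ≤ (w - 2) ^ 2 := sq_nonneg _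
    linarith

lemma fin_bound (k G : ℤ) (hk : 2 ≤ k) (h : G ≤ (3 * k ^ 2) * (3 * k ^ 2 + 2)) : G < 8 * k ^ 6 := by
  have h13 : 4 ≤ k ^ 2 := by nlinarith
  have h15 : 8 * k ^ 6 = 8 * (k ^ 2 * k ^ 2 * k ^ 2) := by ring
  have h16 : 4 * (k ^ 2 * k ^ 2) ≤ k ^ 2 * (k ^ 2 * k ^ 2) := mul_le_mul_of_nonneg_right h13 (by positivity)
  have h17 : 4 * k ^ 2 ≤ k ^ 2 * k ^ 2 := mul_le_mul_of_nonneg_right h13 (by positivity)
  linarith

lemma one_of_sq (g : ℤ) (hg : 0 < g) (h : g ^ 2 ≤ 3) : g = 1 := by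
  have : g < 2 := by
    by_contra hcon
    push Not at hcon
    have := pow_le_pow_left₀ (by norm_num) hcon 2
    linarith
  omega

lemma core (e x y z q : ℤ) (he : e = 1 ∨ e = -1) (hy : 2 ≤ y) (hyz : y < z) (hzx : z < x)
    (E : (x ^ 2 - 1) * (y ^ 2 - 1) = (z ^ 2 - 1) ^ 2) (hne : e = 1 → x - y ≠ 2 * z)
    (hq0 : 0 < q) (hqz : q ∣ z) (hqx : q ∣ x - e * y) :
    ∃ k, z = q * k ∧ 2 ≤ k ∧ q ^ 2 < 8 * k ^ 6 := by
  obtain ⟨g, h, y1, k, ν, μ, hg, hh, hy1, hqg, hyg, hzk, hν, hμ, hd⟩ :=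
    divs e x y z q he hy E hq0 hqz hqx
  obtain ⟨s, hs⟩ : ∃ s, s = x * y - z ^ 2 := ⟨_, rfl⟩
  obtain ⟨hs1, hlow, hup⟩ := sizes x y z s hy hyz hzx E hs
  rw [← hs] at hν hμ
  have hk0 : 0 < k := by
    by_contra hcon
    push Not at hcon
    have : q * k ≤ 0 := mul_nonpos_of_nonneg_of_nonpos hq0.le hcon
    linarith
  refine ⟨k, hzk, ?_⟩
  rw [hqg]
  have hgs : g ^ 2 ≤ s := Int.le_of_dvd (by linarith) ⟨μ, hμ⟩
  have hz2 : z ^ 2 = (k ^ 2 * g ^ 2) * h ^ 2 := by rw [hzk, hqg]; ring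
  have hy2 : y ^ 2 = g ^ 2 * y1 ^ 2 := by rw [hyg]; ring
  obtain ⟨K, hK⟩ : ∃ K, K = k ^ 2 * g ^ 2 := ⟨_, rfl⟩
  rw [← hK] at hz2
  obtain ⟨Δ, hΔ⟩ : ∃ Δ, Δ = k ^ 2 - 2 * ν * y1 ^ 2 := ⟨_, rfl⟩
  have hKΔ : K = 2 * ν * y ^ 2 + g ^ 2 * Δ := by rw [hK, hΔ, hy2]; ring
  have hg1 : 1 ≤ g ^ 2 := one_le_pow₀ hg
  have hh1 : 1 ≤ h ^ 2 := one_le_pow₀ hh
  have hy11 : 1 ≤ y1 ^ 2 := one_le_pow₀ hy1
  have hk1 : 1 ≤ k ^ 2 := one_le_pow₀ hk0
  have hyy : 4 ≤ y ^ 2 := by
    have := pow_le_pow_left₀ (by norm_num) hy 2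
    linarith
  rcases he with rfl | rfl
  · -- the case `e = 1`
    have hs2 : s ≠ 2 := by
      intro h2
      have h3 : (x - y) ^ 2 = (2 * z) ^ 2 := by
        have : (x - y) ^ 2 = s * (2 * z ^ 2 + s - 2) := by
          rw [hs]; linear_combination -E
        rw [this, h2]; ring
      have h4 : x - y = 2 * z := by
        have := (sq_eq_sq₀ (by linarith) (by linarith)).mp h3
        exact this
      exact hne rfl h4
    rcases (by omega : s = 1 ∨ 3 ≤ s) with h1 | h3
    · -- `s = 1`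
      have hg' : g = 1 := one_of_sq g hg (by linarith)
      have hh' : h = 1 := by
        have h5 : h ^ 2 ∣ -1 := ⟨ν, by linarith⟩
        have h6 : h ^ 2 ∣ 1 := by simpa using h5
        have h7 : h ^ 2 ≤ 1 := Int.le_of_dvd one_pos h6
        exact one_of_sq h hh (by linarith)
      have hk3 : 2 ≤ k := by
        rw [hg', hh'] at hqg
        rw [hqg] at hzk
        linarith
      refine ⟨hk3, ?_⟩
      rw [hg', hh']
      have : 1 ≤ k ^ 6 := one_le_pow₀ (by linarith)
      linarith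
    · have hν1 : 1 ≤ ν := by
        by_contra hcon
        have : h ^ 2 * ν ≤ 0 := mul_nonpos_of_nonneg_of_nonpos (by positivity) (by omega)
        linarith
      have hsν : s = h ^ 2 * ν + 2 := by linarith
      -- lower bound
      have hL : 0 < (K - 2 * (y ^ 2 - 1) * ν) * h ^ 2 := by
        have e1 : (K - 2 * (y ^ 2 - 1) * ν) * h ^ 2 = z ^ 2 - 2 * (y ^ 2 - 1) * s + 4 * (y ^ 2 - 1) := by
          rw [hz2, hsν]; ring
        rw [e1]; linarith
      have hL' : 0 < K - 2 * (y ^ 2 - 1) * ν := pos_of_mul_pos_left hL (by positivity)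
      have hU : (2 * K - (4 * (y ^ 2 - 1) + 1) * ν) * h ^ 2 < 12 * y ^ 2 - 7 := by
        have e1 : (2 * K - (4 * (y ^ 2 - 1) + 1) * ν) * h ^ 2 =
            2 * z ^ 2 - (4 * (y ^ 2 - 1) + 1) * s + 2 * (4 * (y ^ 2 - 1) + 1) := by
          rw [hz2, hsν]; ring
        rw [e1]; linarith
      rcases lt_trichotomy Δ 0 with hneg | hzero | hpos
      · -- `Δ < 0`
        have h5 : g ^ 2 ≤ -(g ^ 2 * Δ) := by
          have : g ^ 2 * 1 ≤ g ^ 2 * (-Δ) := mul_le_mul_of_nonneg_left (by omega) (by positivity)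
          linarith
        have h6 : K - 2 * (y ^ 2 - 1) * ν = g ^ 2 * Δ + 2 * ν := by rw [hKΔ]; ring
        have h7 : g ^ 2 < 2 * ν := by linarith
        have h8 : 2 * (y ^ 2 - 1) * ν < k ^ 2 * (2 * ν) := by
          have : K ≤ k ^ 2 * (2 * ν) := by
            rw [hK]; exact mul_le_mul_of_nonneg_left h7.le (by positivity)
          linarith
        have h9 : y ^ 2 - 1 < k ^ 2 := by
          by_contra hcon
          push Not at hcon
          have : k ^ 2 * (2 * ν) ≤ (y ^ 2 - 1) * (2 * ν) := mul_le_mul_of_nonneg_right hcon (by linarith)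
          linarith
        exact small_y g h y1 y k hg hh hy1 hy hyg hd hk0 (by linarith)
      · -- `Δ = 0`
        exfalso
        rw [hzero, mul_zero, add_zero] at hKΔ
        have hquad : (z ^ 2 - (y ^ 2 - 1) * s - y ^ 2) ^ 2 = y ^ 2 * (y ^ 2 - 1) * (s * (s + 2)) := by
          rw [hs]
          linear_combination (-(y ^ 2)) * E
        rw [hz2, hKΔ, hsν] at hquad
        apply no_root y (h ^ 2 * ν) hy (by linarith)
        linear_combination hquad
      · -- `Δ > 0`
        have h5 : 2 * ν * y1 ^ 2 ≤ k ^ 2 - 1 := by linarith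
        have hk2 : 2 ≤ k := by
          by_contra hcon
          have : k = 1 := by omega
          subst this
          have : 0 < 2 * ν * y1 ^ 2 := by positivity
          linarith
        refine ⟨hk2, ?_⟩
        have h6 : 2 * K - (4 * (y ^ 2 - 1) + 1) * ν = 2 * (g ^ 2 * Δ) + 3 * ν := by rw [hKΔ]; ring
        rw [h6] at hU
        have h7 : g ^ 2 ≤ g ^ 2 * Δ := le_mul_of_one_le_right (by positivity) hpos
        have h8 : (2 * g ^ 2) * h ^ 2 < 12 * (g ^ 2 * y1 ^ 2) := by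
          have : (2 * g ^ 2) * h ^ 2 ≤ (2 * (g ^ 2 * Δ) + 3 * ν) * h ^ 2 :=
            mul_le_mul_of_nonneg_right (by linarith) (by positivity)
          rw [← hy2]
          linarith
        have h9 : h ^ 2 < 6 * y1 ^ 2 := by
          by_contra hcon
          push Not at hcon
          have : g ^ 2 * (6 * y1 ^ 2) ≤ g ^ 2 * h ^ 2 := mul_le_mul_of_nonneg_left hcon (by positivity)
          linarith
        have h10 : h ^ 2 * ν < 3 * (k ^ 2 - 1) := by
          have : h ^ 2 * ν < 6 * y1 ^ 2 * ν := mul_lt_mul_of_pos_right h9 (by linarith)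
          linarith
        have h11 : h ^ 2 ≤ h ^ 2 * ν := le_mul_of_one_le_right (by positivity) hν1
        rw [mul_pow]
        apply fin_bound k _ hk2
        apply mul_le_mul <;> linarith
  · -- the case `e = -1`
    have hsν : s = h ^ 2 * ν - 2 := by linarith
    have hν1 : 1 ≤ ν := by
      by_contra hcon
      have : h ^ 2 * ν ≤ 0 := mul_nonpos_of_nonneg_of_nonpos (by positivity) (by omega)
      linarith
    have hL : (2 * (y ^ 2 - 1) * ν - K) * h ^ 2 < 3 * y ^ 2 - 4 := by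
      have e1 : (2 * (y ^ 2 - 1) * ν - K) * h ^ 2 = 2 * (y ^ 2 - 1) * s - z ^ 2 + 4 * (y ^ 2 - 1) := by
        rw [hz2, hsν]; ring
      rw [e1]; linarith
    have hU : (2 * K - (4 * (y ^ 2 - 1) + 1) * ν) * h ^ 2 < 0 := by
      have e1 : (2 * K - (4 * (y ^ 2 - 1) + 1) * ν) * h ^ 2 =
          2 * z ^ 2 - (4 * (y ^ 2 - 1) + 1) * s - 2 * (4 * (y ^ 2 - 1) + 1) := by
        rw [hz2, hsν]; ring
      rw [e1]; linarith
    have hU' : 2 * K - (4 * (y ^ 2 - 1) + 1) * ν < 0 := by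
      by_contra hcon
      push Not at hcon
      have := mul_nonneg hcon (sq_nonneg h)
      linarith
    obtain ⟨a, ha⟩ : ∃ a, a = -Δ := ⟨_, rfl⟩
    have hKa : K = 2 * ν * y ^ 2 - g ^ 2 * a := by rw [hKΔ, ha]; ring
    have hka : 2 * ν * y1 ^ 2 = k ^ 2 + a := by rw [ha, hΔ]; ring
    have h5 : 3 * ν < 2 * (g ^ 2 * a) := by
      have : 2 * K - (4 * (y ^ 2 - 1) + 1) * ν = 3 * ν - 2 * (g ^ 2 * a) := by rw [hKa]; ring
      linarith
    have ha1 : 1 ≤ a := by
      by_contra hcon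
      have : g ^ 2 * a ≤ 0 := mul_nonpos_of_nonneg_of_nonpos (by positivity) (by omega)
      linarith
    have h6 : 2 * (y ^ 2 - 1) * ν - K = g ^ 2 * a - 2 * ν := by rw [hKa]; ring
    rw [h6] at hL
    have h7 : g ^ 2 ≤ g ^ 2 * a := le_mul_of_one_le_right (by positivity) ha1
    rcases lt_or_ge (g ^ 2 * a) (4 * ν) with hlt | hge
    · have h8 : 2 * ν * (y ^ 2 - 2) < k ^ 2 * (4 * ν) := by
        have e1 : K ≤ k ^ 2 * (4 * ν) := by
          rw [hK]
          exact mul_le_mul_of_nonneg_left (by linarith) (by positivity)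
        have e2 : 2 * ν * (y ^ 2 - 2) < K := by rw [hKa]; linarith
        linarith
      have h9 : y ^ 2 - 2 < 2 * k ^ 2 := by
        by_contra hcon
        push Not at hcon
        have : 2 * ν * (2 * k ^ 2) ≤ 2 * ν * (y ^ 2 - 2) := mul_le_mul_of_nonneg_left hcon (by linarith)
        linarith
      exact small_y g h y1 y k hg hh hy1 hy hyg hd hk0 (by linarith)
    · have h8 : g ^ 2 * (a * h ^ 2) < g ^ 2 * (6 * y1 ^ 2) := by
        have e1 : (g ^ 2 * a) * h ^ 2 ≤ (2 * (g ^ 2 * a - 2 * ν)) * h ^ 2 :=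
          mul_le_mul_of_nonneg_right (by linarith) (by positivity)
        have e2 : g ^ 2 * (6 * y1 ^ 2) = 6 * y ^ 2 := by rw [hy2]; ring
        rw [e2]
        linarith
      have h9 : a * h ^ 2 < 6 * y1 ^ 2 := lt_of_mul_lt_mul_left h8 (by positivity)
      have h10 : a * (h ^ 2 * ν) < 3 * (k ^ 2 + a) := by
        have : a * h ^ 2 * ν < 6 * y1 ^ 2 * ν := mul_lt_mul_of_pos_right h9 (by linarith)
        linarith
      have h11 : h ^ 2 * ν < 3 * k ^ 2 + 3 := by
        by_contra hcon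
        push Not at hcon
        have e1 : a * (3 * k ^ 2 + 3) ≤ a * (h ^ 2 * ν) := mul_le_mul_of_nonneg_left hcon (by linarith)
        have e2 : 1 * (3 * k ^ 2) ≤ a * (3 * k ^ 2) := mul_le_mul_of_nonneg_right ha1 (by positivity)
        linarith
      have h12 : h ^ 2 ≤ h ^ 2 * ν := le_mul_of_one_le_right (by positivity) hν1
      have hk2 : 2 ≤ k := by
        by_contra hcon
        have hk' : k = 1 := by omega
        subst hk'
        -- `z = g h > y = g y1`
        have e1 : y1 < h := by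
          have : g * y1 < g * h := by
            rw [← hyg, ← hqg]
            linarith
          exact lt_of_mul_lt_mul_left this hg.le
        have e2 : 2 ≤ h := by omega
        have e3 : 4 ≤ h ^ 2 := by
          have := pow_le_pow_left₀ (by norm_num) e2 2
          linarith
        have e4 : a * (4 * ν) ≤ a * (h ^ 2 * ν) := by
          apply mul_le_mul_of_nonneg_left _ (by linarith)
          apply mul_le_mul_of_nonneg_right e3 (by linarith)
        have e5 : a * 4 ≤ a * (4 * ν) := mul_le_mul_of_nonneg_left (by linarith) (by linarith)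
        have e6 : a < 3 := by linarith
        have e7 : a = 1 := by
          rcases (by omega : a = 1 ∨ a = 2) with h' | h'
          · exact h'
          · exfalso
            rw [h'] at hka
            have : 2 * (ν * y1 ^ 2) = 3 := by linarith
            omega
        rw [e7] at hka h10
        have e8 : ν * y1 ^ 2 = 1 := by linarith
        have e8' : ν = 1 := by
          have : ν ≤ ν * y1 ^ 2 := le_mul_of_one_le_right (by linarith) hy11
          omega
        have e9 : y1 = 1 := by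
          rw [e8'] at e8
          exact one_of_sq y1 hy1 (by linarith)
        rw [e7, e9] at h9
        have e10 : h = 2 := by
          have : h < 3 := by
            by_contra hcon'
            push Not at hcon'
            have := pow_le_pow_left₀ (by norm_num) hcon' 2
            linarith
          omega
        rw [e8', e10] at hsν
        have e11 : g = 1 := one_of_sq g hg (by linarith)
        rw [e11, e9] at hyg
        linarith
      refine ⟨hk2, ?_⟩
      rw [mul_pow]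
      apply fin_bound k _ hk2
      apply mul_le_mul
      · omega
      · omega
      · positivity
      · positivity
end Pool.Agent.H27.B95
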